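import Mathlib

/-!
The sum `f n` of `1/(n-p)` over the primes `p < n`: comparison of its values inside one short
block `(a, a+K]`, starting from the points of the block which have no prime in `[n-G, n)`.
-/

namespace Pool.Agent.H60.RS

open Finset

/-- sum of `1/(n-p)` over the primes `p < n` -/
noncomputable def f (n : ℕ) : ℝ := ∑ p ∈ (range n).filter Nat.Prime, 1 / ((n : ℝ) - p)

/-- sum of `1/(n-p)^2` over the primes `p < n` -/
noncomputable def sq (n : ℕ) : ℝ := ∑ p ∈ (range n).filter Nat.Prime, 1 / ((n : ℝ) - p) ^ 2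

/-- no prime in `[n-G, n)` -/
def Free (G n : ℕ) : Prop := ∀ p, p.Prime → p < n → p + G < n

/-- contribution to `f n` of the primes in `(a, n)` -/
noncomputable def loc (a n : ℕ) : ℝ := ∑ p ∈ (Ioo a n).filter Nat.Prime, 1 / ((n : ℝ) - p)

/-- the number of primes in `(a, a+K]` -/
def cnt (a K : ℕ) : ℕ := ((Ioc a (a + K)).filter Nat.Prime).card

lemma f_nonneg (n : ℕ) : 0 ≤ f n := by
  unfold f
  apply sum_nonneg
  intro p hp
  rw [mem_filter, mem_range] at hp
  have : (p : ℝ) < n := by exact_mod_cast hp.1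
  apply div_nonneg zero_le_one
  linarith

lemma sq_nonneg' (n : ℕ) : 0 ≤ sq n := by
  unfold sq
  apply sum_nonneg
  intro p _
  positivity

lemma loc_nonneg (a n : ℕ) : 0 ≤ loc a n := by
  unfold loc
  apply sum_nonneg
  intro p hp
  rw [mem_filter, mem_Ioo] at hp
  have : (p : ℝ) < n := by exact_mod_cast hp.1.2
  apply div_nonneg zero_le_one
  linarith

lemma range_split (a n : ℕ) (h : a < n) :
    (range n).filter Nat.Prime = (range (a + 1)).filter Nat.Prime ∪ (Ioo a n).filter Nat.Prime := by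
  ext p
  simp only [mem_union, mem_filter, mem_range, mem_Ioo]
  constructor
  · rintro ⟨h1, h2⟩
    by_cases h3 : p < a + 1
    · exact Or.inl ⟨h3, h2⟩
    · exact Or.inr ⟨⟨by omega, h1⟩, h2⟩
  · rintro (⟨h1, h2⟩ | ⟨⟨h1, h3⟩, h2⟩)
    · exact ⟨by omega, h2⟩
    · exact ⟨h3, h2⟩

lemma range_disj (a n : ℕ) :
    Disjoint ((range (a + 1)).filter Nat.Prime) ((Ioo a n).filter Nat.Prime) := by
  rw [disjoint_left]
  intro p h1 h2
  rw [mem_filter, mem_range] at h1
  rw [mem_filter, mem_Ioo] at h2
  omega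

lemma f_split (a n : ℕ) (h : a < n) :
    f n = (∑ p ∈ (range (a + 1)).filter Nat.Prime, 1 / ((n : ℝ) - p)) + loc a n := by
  unfold f loc
  rw [range_split a n h, sum_union (range_disj a n)]

lemma sq_ge (a n : ℕ) (h : a < n) :
    ∑ p ∈ (range (a + 1)).filter Nat.Prime, 1 / ((n : ℝ) - p) ^ 2 ≤ sq n := by
  unfold sq
  apply sum_le_sum_of_subset_of_nonneg
  · rw [range_split a n h]
    exact subset_union_left
  · intro p _ _
    positivity

lemma pt (A B K : ℝ) (hA : 0 < A) (hB : 0 < B) (h : B - A ≤ K) (hK : 0 ≤ K) :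
    1 / A - K * (1 / A ^ 2) ≤ 1 / B := by
  by_cases h1 : B ≤ A
  · have h2 : 1 / A ≤ 1 / B := one_div_le_one_div_of_le hB h1
    have h3 : 0 ≤ K * (1 / A ^ 2) := by positivity
    linarith
  · have h1' : A < B := lt_of_not_ge h1
    have h4 : 1 / A - 1 / B = (B - A) / (A * B) := by
      field_simp
    have h5 : (B - A) / (A * B) ≤ K / (A * A) := by
      apply div_le_div₀ hK h (by positivity)
      exact mul_le_mul_of_nonneg_left h1'.le hA.le
    have h6 : K / (A * A) = K * (1 / A ^ 2) := by
      rw [pow_two]; ring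
    linarith

/-- comparison of `f` at two points of the same block -/
theorem compare (a K G n m : ℕ) (hG : 1 ≤ G) (hn : n ∈ Ioc a (a + K)) (hm : m ∈ Ioc a (a + K))
    (hfree : Free G n) :
    f n - K * sq n - cnt a K / G + loc a m ≤ f m := by
  rw [mem_Ioc] at hn hm
  have hGr : (0 : ℝ) < G := by exact_mod_cast hG
  have h1 : loc a n ≤ cnt a K / G := by
    unfold loc cnt
    calc ∑ p ∈ (Ioo a n).filter Nat.Prime, 1 / ((n : ℝ) - p)
        ≤ ∑ p ∈ (Ioo a n).filter Nat.Prime, 1 / (G : ℝ) := by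
          apply sum_le_sum
          intro p hp
          rw [mem_filter, mem_Ioo] at hp
          have h := hfree p hp.2 hp.1.2
          have h' : (p : ℝ) + G < n := by exact_mod_cast h
          apply one_div_le_one_div_of_le hGr
          linarith
      _ ≤ ∑ p ∈ (Ioc a (a + K)).filter Nat.Prime, 1 / (G : ℝ) := by
          apply sum_le_sum_of_subset_of_nonneg
          · intro p hp
            rw [mem_filter, mem_Ioo] at hp
            rw [mem_filter, mem_Ioc]
            exact ⟨⟨hp.1.1, by omega⟩, hp.2⟩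
          · intro p _ _
            positivity
      _ = _ := by
          rw [sum_const, nsmul_eq_mul]
          ring
  have h2 : (∑ p ∈ (range (a + 1)).filter Nat.Prime, 1 / ((n : ℝ) - p)) - K * sq n ≤
      ∑ p ∈ (range (a + 1)).filter Nat.Prime, 1 / ((m : ℝ) - p) := by
    have h3 : (∑ p ∈ (range (a + 1)).filter Nat.Prime, 1 / ((n : ℝ) - p)) -
        K * (∑ p ∈ (range (a + 1)).filter Nat.Prime, 1 / ((n : ℝ) - p) ^ 2) ≤
        ∑ p ∈ (range (a + 1)).filter Nat.Prime, 1 / ((m : ℝ) - p) := by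
      rw [mul_sum, ← sum_sub_distrib]
      apply sum_le_sum
      intro p hp
      rw [mem_filter, mem_range] at hp
      have hp1 : (p : ℝ) < n := by exact_mod_cast (by omega : p < n)
      have hp2 : (p : ℝ) < m := by exact_mod_cast (by omega : p < m)
      have hmn : (m : ℝ) ≤ n + K := by exact_mod_cast (by omega : m ≤ n + K)
      exact pt _ _ _ (by linarith) (by linarith) (by linarith) (by positivity)
    have h4 := sq_ge a n hn.1
    have h5 : (K : ℝ) * (∑ p ∈ (range (a + 1)).filter Nat.Prime, 1 / ((n : ℝ) - p) ^ 2) ≤ K * sq n :=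
      mul_le_mul_of_nonneg_left h4 (by positivity)
    linarith
  rw [f_split a m hm.1, f_split a n hn.1]
  linarith

/-- `1 - f n` where it is positive -/
noncomputable def u (n : ℕ) : ℝ := max 0 (1 - f n)

lemma u_nonneg (n : ℕ) : 0 ≤ u n := le_max_left _ _

lemma u_le (n : ℕ) : u n ≤ 1 := by
  unfold u
  have := f_nonneg n
  apply max_le (by norm_num)
  linarith

lemma one_sub_u (n : ℕ) : 1 - u n ≤ f n := by
  have := le_max_right 0 (1 - f n)
  unfold u
  linarith

open Classical in
/-- the sum of squares, only at the free points -/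
noncomputable def sqf (G n : ℕ) : ℝ := if Free G n then sq n else 0

lemma sqf_nonneg (G n : ℕ) : 0 ≤ sqf G n := by
  unfold sqf
  split_ifs
  · exact sq_nonneg' n
  · exact le_rfl

/-- total of the local contributions in a block -/
noncomputable def W (a K : ℕ) : ℝ := ∑ m ∈ Ioc a (a + K), loc a m

lemma W_nonneg (a K : ℕ) : 0 ≤ W a K := sum_nonneg fun _ _ => loc_nonneg _ _

open Classical in
/-- blocks with many free points -/
def Good (kap : ℝ) (a K G : ℕ) : Prop :=
  (1 - kap) * K ≤ (((Ioc a (a + K)).filter (Free G)).card : ℝ)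

/-- block inequality, good blocks -/
theorem block_good (kap : ℝ) (hk : kap < 1) (a K G : ℕ) (hG : 1 ≤ G) (hK : 1 ≤ K)
    (hgood : Good kap a K G) :
    (K : ℝ) + W a K - K * (cnt a K / G) -
      (1 / (1 - kap)) * ∑ n ∈ Ioc a (a + K), (u n + K * sqf G n) ≤ ∑ m ∈ Ioc a (a + K), f m := by
  classical
  unfold Good at hgood
  have hKr : (0 : ℝ) < K := by exact_mod_cast hK
  have h1k : (0 : ℝ) < 1 - kap := by linarith
  set F := (Ioc a (a + K)).filter (Free G) with hF
  have hs : (0 : ℝ) < F.card := lt_of_lt_of_le (mul_pos h1k hKr) hgood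
  have hcard : ((Ioc a (a + K)).card : ℝ) = K := by
    rw [Nat.card_Ioc]
    simp
  -- pointwise, averaged over the free points
  have h1 : ∀ m ∈ Ioc a (a + K), (F.card : ℝ) * (1 + loc a m - cnt a K / G) -
      ∑ n ∈ F, (u n + K * sqf G n) ≤ F.card * f m := by
    intro m hm
    have h2 : ∑ n ∈ F, (1 + loc a m - cnt a K / G - (u n + K * sqf G n)) ≤ ∑ n ∈ F, f m := by
      apply sum_le_sum
      intro n hn
      rw [hF, mem_filter] at hn
      have h3 := compare a K G n m hG hn.1 hm hn.2
      have h4 := one_sub_u n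
      have h5 : sqf G n = sq n := by unfold sqf; rw [if_pos hn.2]
      rw [h5]
      linarith
    rw [sum_sub_distrib, sum_const, sum_const, nsmul_eq_mul, nsmul_eq_mul] at h2
    exact h2
  have h2 : ∑ m ∈ Ioc a (a + K), ((F.card : ℝ) * (1 + loc a m - cnt a K / G) -
      ∑ n ∈ F, (u n + K * sqf G n)) ≤ ∑ m ∈ Ioc a (a + K), F.card * f m := sum_le_sum h1
  rw [sum_sub_distrib, ← mul_sum, sum_const, nsmul_eq_mul, hcard, ← mul_sum, sum_sub_distrib,
    sum_add_distrib, sum_const, sum_const, nsmul_eq_mul, nsmul_eq_mul, hcard] at h2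
  have h3 : ∑ n ∈ F, (u n + K * sqf G n) ≤ ∑ n ∈ Ioc a (a + K), (u n + K * sqf G n) := by
    apply sum_le_sum_of_subset_of_nonneg (filter_subset _ _)
    intro n _ _
    have := u_nonneg n
    have := sqf_nonneg G n
    positivity
  set T := ∑ n ∈ Ioc a (a + K), (u n + K * sqf G n) with hT
  have hT0 : 0 ≤ T := by
    apply sum_nonneg
    intro n _
    have := u_nonneg n
    have := sqf_nonneg G n
    positivity
  set X := ∑ m ∈ Ioc a (a + K), f m
  -- divide by the number of free points
  have h4 : (F.card : ℝ) * (K * 1 + W a K - K * (cnt a K / G)) - K * T ≤ F.card * X := by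
    have : (K : ℝ) * ∑ n ∈ F, (u n + K * sqf G n) ≤ K * T := mul_le_mul_of_nonneg_left h3 hKr.le
    unfold W
    linarith
  have h5 : (K : ℝ) * T ≤ F.card * ((1 / (1 - kap)) * T) := by
    have : (K : ℝ) ≤ F.card * (1 / (1 - kap)) := by
      rw [mul_one_div, le_div_iff₀ h1k]
      linarith
    calc (K : ℝ) * T ≤ (F.card * (1 / (1 - kap))) * T := mul_le_mul_of_nonneg_right this hT0
      _ = _ := by ring
  have h6 : (F.card : ℝ) * ((K : ℝ) + W a K - K * (cnt a K / G) - (1 / (1 - kap)) * T) ≤
      F.card * X := by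
    have : (F.card : ℝ) * ((K : ℝ) + W a K - K * (cnt a K / G) - (1 / (1 - kap)) * T) =
      (F.card : ℝ) * (K * 1 + W a K - K * (cnt a K / G)) - F.card * ((1 / (1 - kap)) * T) := by ring
    linarith
  exact le_of_mul_le_mul_left h6 hs

/-- block inequality, all blocks -/
theorem block (kap : ℝ) (hk0 : 0 ≤ kap) (hk : kap < 1) (a K G : ℕ) (hG : 1 ≤ G) (hK : 1 ≤ K) :
    (K : ℝ) + W a K - K * (cnt a K / G) -
      (1 / (1 - kap)) * ∑ n ∈ Ioc a (a + K), (u n + K * sqf G n) -
      (open Classical in if Good kap a K G then 0 else W a K) ≤ ∑ m ∈ Ioc a (a + K), f m := by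
  classical
  by_cases h : Good kap a K G
  · rw [if_pos h, sub_zero]
    exact block_good kap hk a K G hG hK h
  · rw [if_neg h]
    have h1 : ∑ m ∈ Ioc a (a + K), (1 - u m) ≤ ∑ m ∈ Ioc a (a + K), f m :=
      sum_le_sum fun m _ => one_sub_u m
    have hcard : ((Ioc a (a + K)).card : ℝ) = K := by
      rw [Nat.card_Ioc]
      simp
    rw [sum_sub_distrib, sum_const, nsmul_eq_mul, hcard, mul_one] at h1
    have h2 : ∑ m ∈ Ioc a (a + K), u m ≤ (1 / (1 - kap)) * ∑ n ∈ Ioc a (a + K), (u n + K * sqf G n) := by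
      have h3 : ∑ m ∈ Ioc a (a + K), u m ≤ ∑ n ∈ Ioc a (a + K), (u n + K * sqf G n) := by
        apply sum_le_sum
        intro n _
        have := sqf_nonneg G n
        have : 0 ≤ (K : ℝ) * sqf G n := by positivity
        linarith
      have h4 : 0 ≤ ∑ n ∈ Ioc a (a + K), (u n + K * sqf G n) := by
        apply sum_nonneg
        intro n _
        have := u_nonneg n
        have := sqf_nonneg G n
        positivity
      have h5 : 1 ≤ 1 / (1 - kap) := by
        rw [le_div_iff₀ (by linarith)]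
        linarith
      calc ∑ m ∈ Ioc a (a + K), u m ≤ 1 * ∑ n ∈ Ioc a (a + K), (u n + K * sqf G n) := by linarith
        _ ≤ _ := mul_le_mul_of_nonneg_right h5 h4
    have h6 : 0 ≤ (K : ℝ) * (cnt a K / G) := by positivity
    linarith

end Pool.Agent.H60.RS
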