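import Pool.Agent.H60.RS.Dyad

/-!
The lower bound for the mean of `max 0 (1 - f n)` over `(X, 2X]`.
-/

namespace Pool.Agent.H60.RS

open Finset Filter Topology

/-- one `X` -/
lemma one_X (d lam C C2 L M : ℝ) (X K G : ℕ) (hd : 0 < d) (hd8 : d ≤ 1 / 8) (hlam : 0 < lam)
    (hC : 0 < C) (hC2 : 0 < C2) (hlam2 : lam = d ^ 3 / (8 * C2))
    (hM : M = Real.log L)
    (hK : K = ⌊L⌋₊) (hG : G = ⌊lam * L⌋₊) (hX : 4 ≤ X)
    (h1 : 4 ≤ L) (h2 : 2 ≤ lam * L)
    (hup : (pn (2 * X) : ℝ) ≤ 4 * X / L)
    (hlo : (1 - d) * X / L ≤ (((Ioc X (2 * X)).filter Nat.Prime).card : ℝ))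
    (hf : ∑ n ∈ Ioc X (2 * X), f n ≤ X + C * X / L)
    (h4 : 8 * L ^ 2 ≤ d * X) (h5 : 8 / d ≤ L) (h6 : 16 / d ≤ M)
    (h7 : 2 + C + 24 / lam ≤ d * M)
    (hsec : ∑ a ∈ Ico X (2 * X + 1 - K), (cnt a K : ℝ) ^ 2 ≤
      C2 * (K * X / L + (K : ℝ) ^ 2 * X / L ^ 2)) :
    (1 - 9 / 2 * d) * X * M / L ≤ ∑ n ∈ Ioc X (2 * X), u n := by
  classical
  have hXr : (4 : ℝ) ≤ X := by exact_mod_cast hX
  have hX0 : (0 : ℝ) < X := by linarith
  have hL0 : 0 < L := by linarith
  have hKle : (K : ℝ) ≤ L := by rw [hK]; exact Nat.floor_le hL0.le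
  have hKge : L - 1 ≤ K := by rw [hK]; exact (Nat.sub_one_lt_floor L).le
  have hK1 : 1 ≤ K := by
    have : (1 : ℝ) ≤ K := by linarith
    exact_mod_cast this
  have hK0 : (0 : ℝ) < K := by linarith
  have hGle : (G : ℝ) ≤ lam * L := by rw [hG]; exact Nat.floor_le (by positivity)
  have hGge : lam * L / 2 ≤ G := by
    have := (Nat.sub_one_lt_floor (lam * L)).le
    rw [← hG] at this
    linarith
  have hG1 : 1 ≤ G := by
    have : (1 : ℝ) ≤ G := by linarith
    exact_mod_cast this
  have hG0 : (0 : ℝ) < G := by linarith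
  have hdX : d * X ≤ X := by
    calc d * X ≤ 1 * X := mul_le_mul_of_nonneg_right (by linarith) hX0.le
      _ = X := one_mul _
  have hL2 : L ^ 2 ≤ X := by
    have : 0 ≤ L ^ 2 := by positivity
    linarith
  have hKX : K ≤ X := by
    have h8 : (K : ℝ) ≤ X := by
      have : L ≤ L ^ 2 := by nlinarith
      linarith
    exact_mod_cast h8
  have hM0 : 0 < M := lt_of_lt_of_le (by positivity) h6
  have hM128 : 128 ≤ M := by
    have : (128 : ℝ) ≤ 16 / d := by
      rw [le_div_iff₀ hd]
      linarith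
    linarith
  have hpn0 : (0 : ℝ) ≤ pn (2 * X) := by positivity
  have hmas := master' d hd.le (by linarith) X (2 * X) K G hG1 hK1 (by omega)
  -- (1) the total of f
  have b1 : (K : ℝ) * ∑ n ∈ Ioc X (2 * X), f n ≤ K * X + C * X := by
    calc (K : ℝ) * ∑ n ∈ Ioc X (2 * X), f n ≤ K * (X + C * X / L) :=
          mul_le_mul_of_nonneg_left hf hK0.le
      _ = K * X + K * (C * X / L) := by ring
      _ ≤ K * X + L * (C * X / L) := by
          have := mul_le_mul_of_nonneg_right hKle (show 0 ≤ C * X / L by positivity)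
          linarith
      _ = K * X + C * X := by field_simp
  have b1' : (K : ℝ) * K ≤ X := by
    calc (K : ℝ) * K ≤ L * L := mul_le_mul hKle hKle hK0.le hL0.le
      _ = L ^ 2 := by ring
      _ ≤ X := hL2
  -- (2) the main term
  have b2 : (1 - 3 / 2 * d) * X * M ≤
      (((Icc (X + K) (2 * X - K)).filter Nat.Prime).card : ℝ) * (K * Real.log K - K) := by
    have h8 := card_mid' X (2 * X) K hK1 (by omega)
    have h9 : (1 - 5 / 4 * d) * X / L ≤
        (((Icc (X + K) (2 * X - K)).filter Nat.Prime).card : ℝ) := by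
      have h10 : 2 * L ≤ d / 4 * X / L := by
        rw [le_div_iff₀ hL0]
        have : 2 * L * L = 1 / 4 * (8 * L ^ 2) := by ring
        rw [this]
        linarith
      have h11 : (1 - 5 / 4 * d) * X / L = (1 - d) * X / L - d / 4 * X / L := by ring
      rw [h11]
      linarith
    have h12 : M - 1 ≤ Real.log K := by
      have h13 : L / 2 ≤ K := by linarith
      have h14 : Real.log (L / 2) ≤ Real.log K := Real.log_le_log (by positivity) h13
      rw [Real.log_div (by positivity) (by norm_num), ← hM] at h14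
      have := Real.log_two_lt_d9
      linarith
    have h15 : (L - 1) * (M - 2) ≤ K * Real.log K - K := by
      have h16 : (K : ℝ) * Real.log K - K = K * (Real.log K - 1) := by ring
      rw [h16]
      apply mul_le_mul hKge (by linarith) (by linarith) hK0.le
    have h17 : (1 - d / 4) * (L * M) ≤ (L - 1) * (M - 2) := by
      have h18 : 2 * L ≤ d / 8 * (L * M) := by
        have : 16 ≤ d * M := by
          rw [div_le_iff₀ hd] at h6
          linarith
        calc 2 * L = 1 / 8 * 16 * L := by ring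
          _ ≤ 1 / 8 * (d * M) * L := by
              apply mul_le_mul_of_nonneg_right _ hL0.le
              linarith
          _ = d / 8 * (L * M) := by ring
      have h19 : M ≤ d / 8 * (L * M) := by
        have : 8 ≤ d * L := by
          rw [div_le_iff₀ hd] at h5
          linarith
        calc M = 1 / 8 * 8 * M := by ring
          _ ≤ 1 / 8 * (d * L) * M := by
              apply mul_le_mul_of_nonneg_right _ hM0.le
              linarith
          _ = d / 8 * (L * M) := by ring
      have h20 : (L - 1) * (M - 2) = L * M - 2 * L - M + 2 := by ring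
      rw [h20]
      linarith
    have h20 : 0 ≤ (1 - 5 / 4 * d) * X / L := by
      apply div_nonneg _ hL0.le
      apply mul_nonneg _ hX0.le
      linarith
    calc (1 - 3 / 2 * d) * X * M ≤ (1 - 5 / 4 * d) * (1 - d / 4) * (X * M) := by
          have h21 : 0 ≤ X * M := by positivity
          have h22 : 1 - 3 / 2 * d ≤ (1 - 5 / 4 * d) * (1 - d / 4) := by
            have : 0 ≤ 5 / 16 * d ^ 2 := by positivity
            linarith
          calc (1 - 3 / 2 * d) * X * M = (1 - 3 / 2 * d) * (X * M) := by ring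
            _ ≤ _ := mul_le_mul_of_nonneg_right h22 h21
      _ = ((1 - 5 / 4 * d) * X / L) * ((1 - d / 4) * (L * M)) := by
          field_simp
      _ ≤ ((1 - 5 / 4 * d) * X / L) * (K * Real.log K - K) :=
          mul_le_mul_of_nonneg_left (h17.trans h15) h20
      _ ≤ _ := by
          apply mul_le_mul_of_nonneg_right h9
          have : 0 ≤ (L - 1) * (M - 2) := mul_nonneg (by linarith) (by linarith)
          linarith
  -- (3) the bad blocks
  have b3 : har K * Real.sqrt ((open Classical in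
        (((Ico X (2 * X + 1 - K)).filter (fun a => ¬ Good d a K G)).card : ℝ)) *
        ∑ a ∈ Ico X (2 * X + 1 - K), (cnt a K : ℝ) ^ 2) ≤ (1 + M) * (d * X) := by
    have h8 := bad_card' d X (2 * X) K G hK1 (by omega)
    have h9 : ((((Ico X (2 * X + 1 - K)).filter (fun a => ¬ Good d a K G)).card : ℕ) : ℝ) ≤
        4 * lam * X / d := by
      rw [le_div_iff₀ hd, mul_comm]
      refine h8.trans ?_
      calc (G : ℝ) * pn (2 * X) ≤ (lam * L) * (4 * X / L) :=
            mul_le_mul hGle hup hpn0 (by positivity)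
        _ = 4 * lam * X := by field_simp
    have h10 : ∑ a ∈ Ico X (2 * X + 1 - K), (cnt a K : ℝ) ^ 2 ≤ 2 * C2 * X := by
      refine hsec.trans ?_
      have h11 : (K : ℝ) * X / L ≤ X := by
        rw [div_le_iff₀ hL0]
        calc (K : ℝ) * X ≤ L * X := mul_le_mul_of_nonneg_right hKle hX0.le
          _ = X * L := mul_comm _ _
      have h12 : (K : ℝ) ^ 2 * X / L ^ 2 ≤ X := by
        rw [div_le_iff₀ (by positivity)]
        have : (K : ℝ) ^ 2 ≤ L ^ 2 := pow_le_pow_left₀ hK0.le hKle 2
        calc (K : ℝ) ^ 2 * X ≤ L ^ 2 * X := mul_le_mul_of_nonneg_right this hX0.le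
          _ = X * L ^ 2 := mul_comm _ _
      calc C2 * (K * X / L + (K : ℝ) ^ 2 * X / L ^ 2) ≤ C2 * (X + X) :=
            mul_le_mul_of_nonneg_left (add_le_add h11 h12) hC2.le
        _ = _ := by ring
    have h13 : ((((Ico X (2 * X + 1 - K)).filter (fun a => ¬ Good d a K G)).card : ℕ) : ℝ) *
        ∑ a ∈ Ico X (2 * X + 1 - K), (cnt a K : ℝ) ^ 2 ≤ (d * X) ^ 2 := by
      calc ((((Ico X (2 * X + 1 - K)).filter (fun a => ¬ Good d a K G)).card : ℕ) : ℝ) *
          ∑ a ∈ Ico X (2 * X + 1 - K), (cnt a K : ℝ) ^ 2 ≤ (4 * lam * X / d) * (2 * C2 * X) := by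
            apply mul_le_mul h9 h10 (sum_nonneg fun a _ => by positivity) (by positivity)
        _ = (d * X) ^ 2 := by
            rw [hlam2]
            field_simp
            ring
    have h14 : Real.sqrt (((((Ico X (2 * X + 1 - K)).filter
        (fun a => ¬ Good d a K G)).card : ℕ) : ℝ) *
        ∑ a ∈ Ico X (2 * X + 1 - K), (cnt a K : ℝ) ^ 2) ≤ d * X := by
      rw [← Real.sqrt_sq (show 0 ≤ d * X by positivity)]
      exact Real.sqrt_le_sqrt h13
    have h15 : har K ≤ 1 + M := by
      refine (har_le K).trans ?_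
      rw [hM]
      have := Real.log_le_log hK0 hKle
      linarith
    exact mul_le_mul h15 h14 (Real.sqrt_nonneg _) (by linarith)
  -- (4) the rest
  have b4 : (K : ℝ) * K * pn (2 * X) / G ≤ 8 * X / lam := by
    rw [div_le_div_iff₀ hG0 hlam]
    have h8 : (K : ℝ) * K * pn (2 * X) ≤ L * L * (4 * X / L) := by
      apply mul_le_mul _ hup hpn0 (by positivity)
      exact mul_le_mul hKle hKle hK0.le hL0.le
    have h9 : L * L * (4 * X / L) = 4 * X * L := by field_simp
    rw [h9] at h8
    calc (K : ℝ) * K * pn (2 * X) * lam ≤ 4 * X * L * lam := mul_le_mul_of_nonneg_right h8 hlam.le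
      _ = 8 * X * (lam * L / 2) := by ring
      _ ≤ 8 * X * G := mul_le_mul_of_nonneg_left hGge (by positivity)
  have hc : 1 / (1 - d) ≤ 2 := by
    rw [div_le_iff₀ (by linarith)]
    linarith
  have b5 : (1 / (1 - d)) * (K * K * pn (2 * X) / G) ≤ 2 * (8 * X / lam) := by
    apply mul_le_mul hc b4 (by positivity) (by norm_num)
  -- together
  have hXX : (1 - 7 / 2 * d) * X * M ≤ (1 / (1 - d)) * (K * ∑ n ∈ Ioc X (2 * X), u n) := by
    have h8 : (2 + C + 24 / lam) * X ≤ d * M * X := mul_le_mul_of_nonneg_right h7 hX0.le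
    have h9 : (2 + C + 24 / lam) * X = 2 * X + C * X + 3 * (8 * X / lam) := by ring
    rw [h9] at h8
    have h10 : (((2 * X : ℕ) : ℝ) - X - K) * K = K * X - K * K := by push_cast; ring
    rw [h10] at hmas
    have h11 : (1 + M) * (d * X) = d * X + d * M * X := by ring
    rw [h11] at b3
    have h12 : (1 - 7 / 2 * d) * X * M = (1 - 3 / 2 * d) * X * M - d * M * X - d * M * X := by ring
    rw [h12]
    linarith
  set S := ∑ n ∈ Ioc X (2 * X), u n with hS
  have hS0 : 0 ≤ S := sum_nonneg fun n _ => u_nonneg n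
  have h1d : (0 : ℝ) < 1 - d := by linarith
  have hY : (1 - 7 / 2 * d) * X * M * (1 - d) ≤ L * S := by
    have h8 : (1 / (1 - d)) * (K * S) ≤ (1 / (1 - d)) * (L * S) :=
      mul_le_mul_of_nonneg_left (mul_le_mul_of_nonneg_right hKle hS0) (by positivity)
    have h9 := hXX.trans h8
    rw [one_div, inv_mul_eq_div, le_div_iff₀ h1d] at h9
    exact h9
  rw [div_le_iff₀ hL0]
  have h8 : (1 - 9 / 2 * d) * X * M ≤ (1 - 7 / 2 * d) * X * M * (1 - d) := by
    have h21 : 0 ≤ X * M := by positivity
    have h22 : 1 - 9 / 2 * d ≤ (1 - 7 / 2 * d) * (1 - d) := by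
      have : 0 ≤ 7 / 2 * d ^ 2 := by positivity
      linarith
    calc (1 - 9 / 2 * d) * X * M = (1 - 9 / 2 * d) * (X * M) := by ring
      _ ≤ (1 - 7 / 2 * d) * (1 - d) * (X * M) := mul_le_mul_of_nonneg_right h22 h21
      _ = _ := by ring
  linarith

/-- the mean of `max 0 (1 - f n)` over `(X, 2X]` -/
theorem mean_dyadic (e : ℝ) (he : 0 < e) : ∀ᶠ X : ℕ in atTop,
    (1 - e) * X * Real.log (Real.log X) / Real.log X ≤ ∑ n ∈ Ioc X (2 * X), u n := by
  obtain ⟨C0, hC0, hup⟩ := pn_upper
  obtain ⟨C1, hC1, hlo⟩ := Pool.Agent.H38.LV.count_lb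
  obtain ⟨C, hC, havg⟩ := Pool.Agent.H38.LV.avg
  obtain ⟨C2, hC2, hsec⟩ := second'
  set d : ℝ := min (e / 5) (1 / 8) with hd
  have hd0 : 0 < d := lt_min (by positivity) (by norm_num)
  have hd8 : d ≤ 1 / 8 := min_le_right _ _
  have hde : 9 / 2 * d ≤ e := by
    have := min_le_left (e / 5) (1 / 8)
    rw [← hd] at this
    linarith
  set lam : ℝ := d ^ 3 / (8 * C2) with hlam
  have hlam0 : 0 < lam := by positivity
  have tL : Tendsto (fun N : ℕ => Real.log N) atTop atTop :=
    Real.tendsto_log_atTop.comp tendsto_natCast_atTop_atTop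
  have tM : Tendsto (fun N : ℕ => Real.log (Real.log N)) atTop atTop :=
    Real.tendsto_log_atTop.comp tL
  have tLL : ∀ᶠ N : ℕ in atTop, 8 * (Real.log N) ^ 2 ≤ d * N := by
    have h1 : ∀ᶠ x : ℝ in atTop, ‖(Real.log x) ^ 2‖ ≤ (d / 8) * ‖x‖ :=
      (Real.isLittleO_pow_log_id_atTop (n := 2)).def (by positivity)
    have h2 := tendsto_natCast_atTop_atTop.eventually h1
    filter_upwards [h2] with N h3
    rw [Real.norm_of_nonneg (by positivity), Real.norm_of_nonneg (by positivity)] at h3
    linarith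
  filter_upwards [eventually_ge_atTop 4, tL.eventually_ge_atTop 4,
    tL.eventually_ge_atTop (2 / lam), tL.eventually_ge_atTop C0,
    tL.eventually_ge_atTop (C1 / d), tLL,
    tL.eventually_ge_atTop (8 / d), tM.eventually_ge_atTop (16 / d),
    tM.eventually_ge_atTop ((2 + C + 24 / lam) / d)] with X h0 h1 h2 h3 h4 h5 h6 h7 h8
  have hXr : (4 : ℝ) ≤ X := by exact_mod_cast h0
  have hL0 : 0 < Real.log X := by linarith
  have hK1 : 1 ≤ ⌊Real.log X⌋₊ := Nat.le_floor (by push_cast; linarith)
  have hKX : ⌊Real.log X⌋₊ ≤ X := by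
    have h9 : (⌊Real.log X⌋₊ : ℝ) ≤ Real.log X := Nat.floor_le (by linarith)
    have h10 : Real.log X ≤ X := (Real.log_le_sub_one_of_pos (by linarith)).trans (by linarith)
    exact_mod_cast h9.trans h10
  have hup' : (pn (2 * X) : ℝ) ≤ 4 * X / Real.log X := by
    have h9 := hup (2 * X) (by omega)
    push_cast at h9
    have hLL : Real.log X ≤ Real.log (2 * X) := Real.log_le_log (by linarith) (by linarith)
    have h10 : 2 * (X : ℝ) / Real.log (2 * X) ≤ 2 * X / Real.log X :=
      div_le_div_of_nonneg_left (by positivity) hL0 hLL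
    have h11 : C0 * (2 * X) / Real.log (2 * X) ^ 2 ≤ 2 * X / Real.log X := by
      have h12 : C0 * (2 * X) / Real.log (2 * X) ^ 2 ≤ C0 * (2 * X) / Real.log X ^ 2 :=
        div_le_div_of_nonneg_left (by positivity) (by positivity) (pow_le_pow_left₀ hL0.le hLL 2)
      have h13 : C0 * (2 * X) / Real.log X ^ 2 ≤ 2 * X / Real.log X := by
        rw [div_le_div_iff₀ (by positivity) hL0]
        calc C0 * (2 * X) * Real.log X = (2 * X * Real.log X) * C0 := by ring
          _ ≤ (2 * X * Real.log X) * Real.log X := mul_le_mul_of_nonneg_left h3 (by positivity)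
          _ = _ := by ring
      linarith
    have h12 : (4 : ℝ) * X / Real.log X = 2 * X / Real.log X + 2 * X / Real.log X := by ring
    rw [h12]
    linarith
  have hlo' : (1 - d) * X / Real.log X ≤ (((Ioc X (2 * X)).filter Nat.Prime).card : ℝ) := by
    refine le_trans ?_ (hlo X h0)
    have h9 : C1 * X / Real.log X ^ 2 ≤ d * X / Real.log X := by
      rw [div_le_iff₀ hd0] at h4
      rw [div_le_div_iff₀ (by positivity) hL0]
      calc C1 * X * Real.log X = (X * Real.log X) * C1 := by ring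
        _ ≤ (X * Real.log X) * (Real.log X * d) := mul_le_mul_of_nonneg_left h4 (by positivity)
        _ = _ := by ring
    have h10 : (1 - d) * X / Real.log X = X / Real.log X - d * X / Real.log X := by ring
    rw [h10]
    linarith
  have h9 := one_X d lam C C2 (Real.log X) (Real.log (Real.log X)) X ⌊Real.log X⌋₊
    ⌊lam * Real.log X⌋₊ hd0 hd8 hlam0 hC hC2 hlam rfl rfl rfl h0 h1
    (by rw [div_le_iff₀ hlam0] at h2; linarith) hup' hlo' (havg X h0) h5 h6 h7
    (by rw [div_le_iff₀ hd0] at h8; linarith)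
    (hsec X ⌊Real.log X⌋₊ (by omega) hK1 hKX)
  refine le_trans ?_ h9
  have hM0 : 0 ≤ Real.log (Real.log X) := by
    apply Real.log_nonneg
    linarith
  apply div_le_div_of_nonneg_right _ (by linarith)
  apply mul_le_mul_of_nonneg_right _ hM0
  apply mul_le_mul_of_nonneg_right _ (by linarith)
  linarith

/-- a dip in every dyadic interval -/
theorem dip_dyadic (e : ℝ) (he : 0 < e) (he1 : e < 1) : ∀ᶠ X : ℕ in atTop,
    ∃ n ∈ Ioc X (2 * X), f n ≤ 1 - (1 - e) * Real.log (Real.log n) / Real.log n := by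
  have tL : Tendsto (fun N : ℕ => Real.log N) atTop atTop :=
    Real.tendsto_log_atTop.comp tendsto_natCast_atTop_atTop
  have tM : Tendsto (fun N : ℕ => Real.log (Real.log N)) atTop atTop :=
    Real.tendsto_log_atTop.comp tL
  filter_upwards [mean_dyadic e he, eventually_ge_atTop 16, tL.eventually_ge_atTop (Real.exp 1),
    tM.eventually_ge_atTop 1] with X h1 h2 h3 h4
  by_contra hcon
  push Not at hcon
  have hXr : (16 : ℝ) ≤ X := by exact_mod_cast h2
  have he0 := Real.exp_pos 1
  have hL0 : 0 < Real.log X := lt_of_lt_of_le he0 h3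
  set q := Real.log (Real.log X) / Real.log X with hq
  have hq0 : 0 < q := by positivity
  have h5 : ∀ n ∈ Ioc X (2 * X), u n < (1 - e) * q := by
    intro n hn
    have h6 := hcon n hn
    rw [mem_Ioc] at hn
    have hXn : (X : ℝ) ≤ n := by exact_mod_cast hn.1.le
    have h7 : Real.log X ≤ Real.log n := Real.log_le_log (by linarith) hXn
    have h8 := Real.log_div_self_antitoneOn (show Real.exp 1 ≤ Real.log X from h3)
      (show Real.exp 1 ≤ Real.log n from h3.trans h7) h7
    simp only at h8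
    have h9 : (1 - e) * Real.log (Real.log n) / Real.log n =
        (1 - e) * (Real.log (Real.log n) / Real.log n) := by ring
    have h10 : (1 - e) * (Real.log (Real.log n) / Real.log n) ≤ (1 - e) * q :=
      mul_le_mul_of_nonneg_left h8 (by linarith)
    unfold u
    apply max_lt
    · apply mul_pos (by linarith) hq0
    · rw [h9] at h6
      linarith
  have h6 : ∑ n ∈ Ioc X (2 * X), u n < ∑ n ∈ Ioc X (2 * X), (1 - e) * q := by
    apply sum_lt_sum_of_nonempty _ h5
    exact ⟨2 * X, by rw [mem_Ioc]; omega⟩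
  rw [sum_const, nsmul_eq_mul, Nat.card_Ioc] at h6
  have h7 : ((2 * X - X : ℕ) : ℝ) = X := by
    have : 2 * X - X = X := by omega
    rw [this]
  rw [h7] at h6
  have h8 : (1 - e) * X * Real.log (Real.log X) / Real.log X = X * ((1 - e) * q) := by
    rw [hq]
    ring
  rw [h8] at h1
  linarith

end Pool.Agent.H60.RS
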