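import Pool.Agent.H60.RS.Prime
import Pool.Agent.H38.LV.Cnt

/-!
The blocks inside `(X, 2X]`.
-/

namespace Pool.Agent.H60.RS

open Finset Filter Topology

/-- each point lies in at most `K` blocks -/
theorem sum_blocks' (g : ℕ → ℝ) (hg : ∀ n, 0 ≤ g n) (X Y K : ℕ) (hK : X + K ≤ Y) :
    ∑ a ∈ Ico X (Y + 1 - K), ∑ n ∈ Ioc a (a + K), g n ≤ K * ∑ n ∈ Ioc X Y, g n := by
  classical
  have h1 : ∑ a ∈ Ico X (Y + 1 - K), ∑ n ∈ Ioc a (a + K), g n =
      ∑ n ∈ Ioc X Y, ∑ a ∈ (Ico X (Y + 1 - K)).filter (fun a => a < n ∧ n ≤ a + K), g n := by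
    rw [sum_comm' (t' := Ioc X Y)
      (s' := fun n => (Ico X (Y + 1 - K)).filter (fun a => a < n ∧ n ≤ a + K))]
    intro a n
    rw [mem_filter, mem_Ico, mem_Ioc, mem_Ioc]
    constructor
    · rintro ⟨⟨h0, h1⟩, h2, h3⟩
      exact ⟨⟨⟨h0, h1⟩, h2, h3⟩, by omega, by omega⟩
    · rintro ⟨⟨⟨h0, h1⟩, h2, h3⟩, _, _⟩
      exact ⟨⟨h0, h1⟩, h2, h3⟩
  rw [h1, mul_sum]
  apply sum_le_sum
  intro n _
  rw [sum_const, nsmul_eq_mul]
  apply mul_le_mul_of_nonneg_right _ (hg n)
  have h2 : ((Ico X (Y + 1 - K)).filter (fun a => a < n ∧ n ≤ a + K)).card ≤ K := by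
    calc ((Ico X (Y + 1 - K)).filter (fun a => a < n ∧ n ≤ a + K)).card
        ≤ (Ico (n - K) n).card := by
          apply card_le_card
          intro a ha
          rw [mem_filter] at ha
          rw [mem_Ico]
          omega
      _ ≤ K := by
          rw [Nat.card_Ico]
          omega
  exact_mod_cast h2

/-- from the dyadic interval to everything -/
lemma sum_Ioc_le (g : ℕ → ℝ) (hg : ∀ n, 0 ≤ g n) (X Y : ℕ) :
    ∑ n ∈ Ioc X Y, g n ≤ ∑ n ∈ Icc 1 Y, g n := by
  apply sum_le_sum_of_subset_of_nonneg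
  · intro n hn
    rw [mem_Ioc] at hn
    rw [mem_Icc]
    omega
  · intro n _ _
    exact hg n

theorem sum_cnt' (X Y K : ℕ) (hK : X + K ≤ Y) :
    ∑ a ∈ Ico X (Y + 1 - K), (cnt a K : ℝ) ≤ K * pn Y := by
  simp only [cnt_eq, pn_eq]
  have h0 : ∀ n : ℕ, (0 : ℝ) ≤ (if n.Prime then (1 : ℝ) else 0) := by
    intro n
    split_ifs <;> norm_num
  refine (sum_blocks' _ h0 X Y K hK).trans ?_
  exact mul_le_mul_of_nonneg_left (sum_Ioc_le _ h0 X Y) (by positivity)

/-- total of the local sums -/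
theorem sum_W' (X Y K : ℕ) (hK : 1 ≤ K) :
    (((Icc (X + K) (Y - K)).filter Nat.Prime).card : ℝ) * ∑ r ∈ range K, har r ≤
      ∑ a ∈ Ico X (Y + 1 - K), W a K := by
  classical
  by_cases hN : X + 2 * K ≤ Y
  swap
  · have : Icc (X + K) (Y - K) = ∅ := by
      apply Icc_eq_empty
      omega
    rw [this, filter_empty, card_empty, Nat.cast_zero, zero_mul]
    exact sum_nonneg fun a _ => W_nonneg a K
  have h1 : ∑ a ∈ Ico X (Y + 1 - K), W a K =
      ∑ a ∈ Ico X (Y + 1 - K), ∑ p ∈ (Ioc a (a + K)).filter Nat.Prime, har (a + K - p) := by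
    apply sum_congr rfl
    intro a _
    exact W_eq a K
  have h2 : ∑ a ∈ Ico X (Y + 1 - K), ∑ p ∈ (Ioc a (a + K)).filter Nat.Prime, har (a + K - p) =
      ∑ p ∈ (Icc 1 Y).filter Nat.Prime,
        ∑ a ∈ (Ico X (Y + 1 - K)).filter (fun a => a < p ∧ p ≤ a + K), har (a + K - p) := by
    rw [sum_comm' (t' := (Icc 1 Y).filter Nat.Prime)
      (s' := fun p => (Ico X (Y + 1 - K)).filter (fun a => a < p ∧ p ≤ a + K))]
    intro a p
    rw [mem_filter, mem_filter, mem_filter, mem_Ico, mem_Ioc, mem_Icc]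
    constructor
    · rintro ⟨⟨h0, h1⟩, ⟨h2, h3⟩, h4⟩
      exact ⟨⟨⟨h0, h1⟩, h2, h3⟩, ⟨by omega, by omega⟩, h4⟩
    · rintro ⟨⟨⟨h0, h1⟩, h2, h3⟩, _, h4⟩
      exact ⟨⟨h0, h1⟩, ⟨h2, h3⟩, h4⟩
  rw [h1, h2]
  have h3 : ∑ p ∈ (Icc (X + K) (Y - K)).filter Nat.Prime, ∑ r ∈ range K, har r ≤
      ∑ p ∈ (Icc (X + K) (Y - K)).filter Nat.Prime,
        ∑ a ∈ (Ico X (Y + 1 - K)).filter (fun a => a < p ∧ p ≤ a + K), har (a + K - p) := by
    apply sum_le_sum
    intro p hp
    rw [mem_filter, mem_Icc] at hp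
    apply le_of_eq
    apply sum_bij (fun r _ => p - K + r)
    · intro r hr
      rw [mem_range] at hr
      rw [mem_filter, mem_Ico]
      omega
    · intro i _ j _ h
      omega
    · intro a ha
      rw [mem_filter, mem_Ico] at ha
      refine ⟨a + K - p, ?_, by omega⟩
      rw [mem_range]
      omega
    · intro r hr
      rw [mem_range] at hr
      have : p - K + r + K - p = r := by omega
      rw [this]
  rw [sum_const, nsmul_eq_mul] at h3
  refine h3.trans ?_
  apply sum_le_sum_of_subset_of_nonneg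
  · intro p hp
    rw [mem_filter, mem_Icc] at hp ⊢
    exact ⟨⟨by omega, by omega⟩, hp.2⟩
  · intro p _ _
    apply sum_nonneg
    intro a _
    exact har_nonneg _

open Classical in
/-- few bad blocks -/
theorem bad_card' (kap : ℝ) (X Y K G : ℕ) (hK1 : 1 ≤ K) (hK : X + K ≤ Y) :
    kap * ((((Ico X (Y + 1 - K)).filter (fun a => ¬ Good kap a K G)).card : ℕ) : ℝ) ≤
      G * pn Y := by
  have hKr : (0 : ℝ) < K := by exact_mod_cast hK1
  set B := (Ico X (Y + 1 - K)).filter (fun a => ¬ Good kap a K G) with hB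
  have hnn : ∀ n : ℕ, (0 : ℝ) ≤ (if Free G n then (0 : ℝ) else 1) := by
    intro n
    split_ifs <;> norm_num
  have h1 : ∀ a ∈ B, kap * K ≤ ∑ n ∈ Ioc a (a + K), (if Free G n then (0 : ℝ) else 1) := by
    intro a ha
    rw [hB, mem_filter] at ha
    have h2 := ha.2
    unfold Good at h2
    have h2' : (((Ioc a (a + K)).filter (Free G)).card : ℝ) < (1 - kap) * K := lt_of_not_ge h2
    have h3 : ∑ n ∈ Ioc a (a + K), (if Free G n then (0 : ℝ) else 1) =
        (((Ioc a (a + K)).filter (fun n => ¬ Free G n)).card : ℝ) := by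
      rw [card_filter]
      push_cast
      apply sum_congr rfl
      intro n _
      split_ifs <;> norm_num
    have h4 : ((Ioc a (a + K)).filter (Free G)).card +
        ((Ioc a (a + K)).filter (fun n => ¬ Free G n)).card = K := by
      rw [card_filter_add_card_filter_not, Nat.card_Ioc]
      omega
    have h4' : (((Ioc a (a + K)).filter (Free G)).card : ℝ) +
        (((Ioc a (a + K)).filter (fun n => ¬ Free G n)).card : ℝ) = K := by exact_mod_cast h4
    rw [h3]
    linarith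
  have h5 : (B.card : ℝ) * (kap * K) ≤
      ∑ a ∈ Ico X (Y + 1 - K), ∑ n ∈ Ioc a (a + K), (if Free G n then (0 : ℝ) else 1) := by
    rw [← nsmul_eq_mul, ← sum_const]
    refine (sum_le_sum h1).trans ?_
    apply sum_le_sum_of_subset_of_nonneg (filter_subset _ _)
    intro a _ _
    exact sum_nonneg fun n _ => hnn n
  have h6 := sum_blocks' (fun n => if Free G n then (0 : ℝ) else 1) hnn X Y K hK
  have h6' := sum_Ioc_le (fun n => if Free G n then (0 : ℝ) else 1) hnn X Y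
  have h7 : ∑ n ∈ Icc 1 Y, (if Free G n then (0 : ℝ) else 1) =
      (((Icc 1 Y).filter (fun n => ¬ Free G n)).card : ℝ) := by
    rw [card_filter]
    push_cast
    apply sum_congr rfl
    intro n _
    split_ifs <;> norm_num
  have h8 := not_free Y G
  rw [h7] at h6'
  have h9 : (B.card : ℝ) * (kap * K) ≤ K * (G * pn Y) :=
    (h5.trans h6).trans (mul_le_mul_of_nonneg_left (h6'.trans h8) hKr.le)
  have h10 : (K : ℝ) * (kap * B.card) ≤ K * (G * pn Y) := by linarith
  exact le_of_mul_le_mul_left h10 hKr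

lemma card_mid' (X Y K : ℕ) (hK : 1 ≤ K) (hKN : X + K ≤ Y) :
    (((Ioc X Y).filter Nat.Prime).card : ℝ) - 2 * K ≤
      (((Icc (X + K) (Y - K)).filter Nat.Prime).card : ℝ) := by
  classical
  have h1 : (Ioc X Y).filter Nat.Prime ⊆
      ((Icc (X + K) (Y - K)).filter Nat.Prime) ∪ ((Ioo X (X + K)) ∪ (Ioc (Y - K) Y)) := by
    intro p hp
    rw [mem_filter, mem_Ioc] at hp
    rw [mem_union, mem_union, mem_filter, mem_Icc, mem_Ioo, mem_Ioc]
    by_cases h1 : p < X + K
    · exact Or.inr (Or.inl ⟨hp.1.1, h1⟩)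
    · by_cases h2 : Y - K < p
      · exact Or.inr (Or.inr ⟨h2, hp.1.2⟩)
      · exact Or.inl ⟨⟨by omega, by omega⟩, hp.2⟩
  have h2 : ((Ioc X Y).filter Nat.Prime).card ≤
      ((Icc (X + K) (Y - K)).filter Nat.Prime).card + 2 * K := by
    refine (card_le_card h1).trans ?_
    refine (card_union_le _ _).trans ?_
    have h3 := card_union_le (Ioo X (X + K)) (Ioc (Y - K) Y)
    rw [Nat.card_Ioo, Nat.card_Ioc] at h3
    omega
  have h3 : (((Ioc X Y).filter Nat.Prime).card : ℝ) ≤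
      (((Icc (X + K) (Y - K)).filter Nat.Prime).card : ℝ) + 2 * K := by
    exact_mod_cast h2
  linarith

/-- all blocks of `(X, Y]` together -/
theorem master' (kap : ℝ) (hk0 : 0 ≤ kap) (hk : kap < 1) (X Y K G : ℕ) (hG : 1 ≤ G) (hK : 1 ≤ K)
    (hKN : X + K ≤ Y) :
    ((Y : ℝ) - X - K) * K +
      (((Icc (X + K) (Y - K)).filter Nat.Prime).card : ℝ) * (K * Real.log K - K) -
      har K * Real.sqrt ((open Classical in
        (((Ico X (Y + 1 - K)).filter (fun a => ¬ Good kap a K G)).card : ℝ)) *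
        ∑ a ∈ Ico X (Y + 1 - K), (cnt a K : ℝ) ^ 2) -
      K * K * pn Y / G - (1 / (1 - kap)) * (K * K * pn Y / G) - K * ∑ n ∈ Ioc X Y, f n ≤
    (1 / (1 - kap)) * (K * ∑ n ∈ Ioc X Y, u n) := by
  classical
  have hKr : (0 : ℝ) < K := by exact_mod_cast hK
  have hGr : (0 : ℝ) < G := by exact_mod_cast hG
  have h1k : (0 : ℝ) < 1 - kap := by linarith
  set A := Ico X (Y + 1 - K) with hA
  have h1 : ∑ a ∈ A, ((K : ℝ) + W a K - K * (cnt a K / G) -
      (1 / (1 - kap)) * ∑ n ∈ Ioc a (a + K), (u n + K * sqf G n) -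
      (if Good kap a K G then 0 else W a K)) ≤ ∑ a ∈ A, ∑ m ∈ Ioc a (a + K), f m := by
    apply sum_le_sum
    intro a _
    exact block kap hk0 hk a K G hG hK
  have h2 := sum_blocks' f f_nonneg X Y K hKN
  rw [sum_sub_distrib, sum_sub_distrib, sum_sub_distrib, sum_add_distrib, sum_const,
    nsmul_eq_mul, ← mul_sum, ← mul_sum, ← sum_div] at h1
  have hAc : ((Y : ℝ) - X - K) ≤ (A.card : ℝ) := by
    rw [hA, Nat.card_Ico]
    have : (Y : ℝ) - X - K = ((Y - X - K : ℕ) : ℝ) := by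
      rw [Nat.cast_sub (by omega), Nat.cast_sub (by omega)]
    rw [this]
    exact_mod_cast (by omega : Y - X - K ≤ Y + 1 - K - X)
  have h5 : ((Y : ℝ) - X - K) * K ≤ A.card * K := mul_le_mul_of_nonneg_right hAc hKr.le
  -- the local sums
  have h6 := sum_W' X Y K hK
  have h7 := sum_har K
  have h8 : (((Icc (X + K) (Y - K)).filter Nat.Prime).card : ℝ) * (K * Real.log K - K) ≤
      ∑ a ∈ A, W a K :=
    (mul_le_mul_of_nonneg_left h7 (by positivity)).trans h6
  -- the counts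
  have h9 : (K : ℝ) * ((∑ a ∈ A, (cnt a K : ℝ)) / G) ≤ K * K * pn Y / G := by
    have := sum_cnt' X Y K hKN
    rw [← mul_div_assoc]
    apply div_le_div_of_nonneg_right _ hGr.le
    calc (K : ℝ) * ∑ a ∈ A, (cnt a K : ℝ) ≤ K * (K * pn Y) :=
          mul_le_mul_of_nonneg_left this hKr.le
      _ = _ := by ring
  -- the deficits
  have h10 : (1 / (1 - kap)) * ∑ a ∈ A, ∑ n ∈ Ioc a (a + K), (u n + K * sqf G n) ≤
      (1 / (1 - kap)) * (K * ∑ n ∈ Ioc X Y, u n) + (1 / (1 - kap)) * (K * K * pn Y / G) := by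
    rw [← mul_add]
    apply mul_le_mul_of_nonneg_left _ (by positivity)
    have h11 := sum_blocks' (fun n => u n + K * sqf G n) (fun n => by
      have := u_nonneg n
      have := sqf_nonneg G n
      positivity) X Y K hKN
    refine h11.trans ?_
    rw [sum_add_distrib, ← mul_sum, mul_add]
    have h12 := (sum_Ioc_le (sqf G) (sqf_nonneg G) X Y).trans (sum_sqf Y G hG)
    have h13 : (K : ℝ) * (K * ∑ n ∈ Ioc X Y, sqf G n) ≤ K * (K * (pn Y / G)) :=
      mul_le_mul_of_nonneg_left (mul_le_mul_of_nonneg_left h12 hKr.le) hKr.le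
    have h14 : (K : ℝ) * (K * (pn Y / G)) = K * K * pn Y / G := by ring
    linarith
  -- the bad blocks
  have h15 : ∑ a ∈ A, (if Good kap a K G then 0 else W a K) ≤
      har K * Real.sqrt (((A.filter (fun a => ¬ Good kap a K G)).card : ℝ) *
        ∑ a ∈ A, (cnt a K : ℝ) ^ 2) := by
    set B := A.filter (fun a => ¬ Good kap a K G) with hB
    have h16 : ∑ a ∈ A, (if Good kap a K G then 0 else W a K) = ∑ a ∈ B, W a K := by
      rw [hB, sum_filter]
      apply sum_congr rfl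
      intro a _
      by_cases h : Good kap a K G
      · rw [if_pos h, if_neg (not_not.mpr h)]
      · rw [if_neg h, if_pos h]
    have h17 : ∑ a ∈ B, W a K ≤ har K * ∑ a ∈ B, (cnt a K : ℝ) := by
      rw [mul_sum]
      apply sum_le_sum
      intro a _
      rw [mul_comm]
      exact W_le a K
    have h18 : (∑ a ∈ B, (cnt a K : ℝ)) ^ 2 ≤ (B.card : ℝ) * ∑ a ∈ A, (cnt a K : ℝ) ^ 2 := by
      refine (sq_sum_le_card_mul_sum_sq).trans ?_
      apply mul_le_mul_of_nonneg_left _ (by positivity)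
      apply sum_le_sum_of_subset_of_nonneg (filter_subset _ _)
      intro a _ _
      positivity
    rw [h16]
    refine h17.trans ?_
    apply mul_le_mul_of_nonneg_left _ (har_nonneg K)
    exact Real.le_sqrt_of_sq_le h18
  linarith

/-- second moment over the blocks of `(X, 2X]` -/
theorem second' : ∃ C : ℝ, 0 < C ∧ ∀ X K : ℕ, 2 ≤ X → 1 ≤ K → K ≤ X →
    ∑ a ∈ Ico X (2 * X + 1 - K), (cnt a K : ℝ) ^ 2 ≤
      C * (K * X / Real.log X + (K : ℝ) ^ 2 * X / (Real.log X) ^ 2) := by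
  obtain ⟨C, hC, h⟩ := Pool.Agent.H5.Short.second
  refine ⟨2 * C, by positivity, fun X K hX hK hKX => ?_⟩
  have h1 := h (2 * X) K (by omega) hK (by omega)
  have h2 : ∑ a ∈ Ico X (2 * X + 1 - K), (cnt a K : ℝ) ^ 2 ≤
      ∑ a ∈ range (2 * X), (Pool.Agent.H5.Short.pc a K : ℝ) ^ 2 := by
    apply sum_le_sum_of_subset_of_nonneg
    · intro a ha
      rw [mem_Ico] at ha
      rw [mem_range]
      omega
    · intro a _ _
      positivity
  refine h2.trans (h1.trans ?_)
  push_cast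
  have hXr : (2 : ℝ) ≤ X := by exact_mod_cast hX
  have hL : 0 < Real.log X := Real.log_pos (by linarith)
  have hLL : Real.log X ≤ Real.log (2 * X) := Real.log_le_log (by linarith) (by linarith)
  have h3 : (K : ℝ) * (2 * X) / Real.log (2 * X) ≤ K * (2 * X) / Real.log X :=
    div_le_div_of_nonneg_left (by positivity) hL hLL
  have h4 : (K : ℝ) ^ 2 * (2 * X) / Real.log (2 * X) ^ 2 ≤ K ^ 2 * (2 * X) / Real.log X ^ 2 :=
    div_le_div_of_nonneg_left (by positivity) (by positivity) (pow_le_pow_left₀ hL.le hLL 2)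
  calc C * (K * (2 * X) / Real.log (2 * X) + (K : ℝ) ^ 2 * (2 * X) / Real.log (2 * X) ^ 2)
      ≤ C * (K * (2 * X) / Real.log X + K ^ 2 * (2 * X) / Real.log X ^ 2) :=
        mul_le_mul_of_nonneg_left (add_le_add h3 h4) hC.le
    _ = _ := by ring

end Pool.Agent.H60.RS
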