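import Pool.Agent.H60.RS.DMain

/-!
Infinitely many primes `p` with `f p ≤ 1 - (1-e) log log p / log p`.
-/

namespace Pool.Agent.H60.RS

open Finset Filter Topology

/-- `f` decreases up to the next prime -/
lemma f_next (n p : ℕ) (hnp : n ≤ p) (h : ∀ q, n ≤ q → q < p → ¬ q.Prime) : f p ≤ f n := by
  unfold f
  have h1 : (range p).filter Nat.Prime = (range n).filter Nat.Prime := by
    ext q
    rw [mem_filter, mem_filter, mem_range, mem_range]
    constructor
    · rintro ⟨h1, h2⟩
      refine ⟨?_, h2⟩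
      by_contra h3
      exact h q (by omega) h1 h2
    · rintro ⟨h1, h2⟩
      exact ⟨by omega, h2⟩
  rw [h1]
  apply sum_le_sum
  intro q hq
  rw [mem_filter, mem_range] at hq
  have h2 : (q : ℝ) < n := by exact_mod_cast hq.1
  have h3 : (n : ℝ) ≤ p := by exact_mod_cast hnp
  apply one_div_le_one_div_of_le (by linarith)
  linarith

/-- infinitely many primes with a dip -/
theorem dip_prime (e : ℝ) (he : 0 < e) (he1 : e < 1) (m : ℕ) :
    ∃ p, m < p ∧ p.Prime ∧ f p ≤ 1 - (1 - e) * Real.log (Real.log p) / Real.log p := by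
  classical
  have tL : Tendsto (fun N : ℕ => Real.log N) atTop atTop :=
    Real.tendsto_log_atTop.comp tendsto_natCast_atTop_atTop
  obtain ⟨X, ⟨n, hn, h2⟩, hX16, hXm, hXe⟩ := ((dip_dyadic e he he1).and
    ((eventually_ge_atTop 16).and ((eventually_ge_atTop m).and
      (tL.eventually_ge_atTop (Real.exp 1))))).exists
  rw [mem_Ioc] at hn
  have hex : ∃ p, n ≤ p ∧ p.Prime := Nat.exists_infinite_primes n
  set p := Nat.find hex with hp
  have h3 : n ≤ p ∧ p.Prime := Nat.find_spec hex
  have h4 : ∀ q, n ≤ q → q < p → ¬ q.Prime := by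
    intro q hq1 hq2 hq3
    exact Nat.find_min hex hq2 ⟨hq1, hq3⟩
  have h5 := f_next n p h3.1 h4
  refine ⟨p, by omega, h3.2, ?_⟩
  refine h5.trans (h2.trans ?_)
  have hXr : (16 : ℝ) ≤ X := by exact_mod_cast hX16
  have hnr : (X : ℝ) < n := by exact_mod_cast hn.1
  have hnp : (n : ℝ) ≤ p := by exact_mod_cast h3.1
  have he2 : Real.exp 1 ≤ Real.log n := hXe.trans (Real.log_le_log (by linarith) hnr.le)
  have h6 : Real.log n ≤ Real.log p := Real.log_le_log (by linarith) hnp
  have h7 := Real.log_div_self_antitoneOn (show Real.exp 1 ≤ Real.log n from he2)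
    (show Real.exp 1 ≤ Real.log p from he2.trans h6) h6
  simp only at h7
  have h8 : (1 - e) * (Real.log (Real.log p) / Real.log p) ≤
      (1 - e) * (Real.log (Real.log n) / Real.log n) :=
    mul_le_mul_of_nonneg_left h7 (by linarith)
  have h9 : (1 - e) * Real.log (Real.log p) / Real.log p =
      (1 - e) * (Real.log (Real.log p) / Real.log p) := by ring
  have h10 : (1 - e) * Real.log (Real.log n) / Real.log n =
      (1 - e) * (Real.log (Real.log n) / Real.log n) := by ring
  rw [h9, h10]
  linarith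

end Pool.Agent.H60.RS
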