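import Pool.Agent.H60.RS.Sums
import Pool.Agent.H43.SI.Psi
import Pool.Agent.H5.PNT.PNT
import Pool.Agent.H5.Short.Second

/-!
The number of primes up to `N` with an error term, and the second moment over blocks.
-/

namespace Pool.Agent.H60.RS

open Finset Filter Topology

lemma pn_le_self (N : ℕ) : pn N ≤ N := by
  unfold pn
  refine (card_filter_le _ _).trans ?_
  rw [Nat.card_Icc]
  omega

lemma pn_cheb : ∃ C : ℝ, 0 < C ∧ ∀ N : ℕ, 2 ≤ N → (pn N : ℝ) ≤ C * N / Real.log N :=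
  Pool.Agent.H5.Short.pi_le

/-- sum of `log p` up to `N` -/
lemma theta_le : ∃ C : ℝ, 0 < C ∧ ∀ N : ℕ, 2 ≤ N →
    ∑ p ∈ (Icc 1 N).filter Nat.Prime, Real.log p ≤ N + C * N / Real.log N := by
  obtain ⟨C, hC, h⟩ := Pool.Agent.H43.SI.psi_log 1 1 one_pos
  refine ⟨C, hC, fun N hN => ?_⟩
  have h1 := h 1 (N : ℝ) (by exact_mod_cast hN)
  rw [if_pos rfl, Nat.floor_natCast] at h1
  have h2 : ∑ n ∈ Icc 1 N, ((ArithmeticFunction.vonMangoldt n : ℝ) : ℂ) *
      (1 : DirichletCharacter ℂ 1) n =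
      ((∑ n ∈ Icc 1 N, ArithmeticFunction.vonMangoldt n : ℝ) : ℂ) := by
    push_cast
    apply sum_congr rfl
    intro n _
    rw [Pool.Agent.H43.SI.ps_one, mul_one]
  rw [h2] at h1
  have h3 : ‖((∑ n ∈ Icc 1 N, ArithmeticFunction.vonMangoldt n : ℝ) : ℂ) - ((N : ℝ) : ℂ)‖ =
      |(∑ n ∈ Icc 1 N, ArithmeticFunction.vonMangoldt n : ℝ) - N| := by
    rw [← Complex.ofReal_sub, Complex.norm_real, Real.norm_eq_abs]
  rw [h3] at h1
  have h4 := (abs_le.mp h1).2
  have h5 : ∑ p ∈ (Icc 1 N).filter Nat.Prime, Real.log p ≤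
      ∑ n ∈ Icc 1 N, (ArithmeticFunction.vonMangoldt n : ℝ) := by
    calc ∑ p ∈ (Icc 1 N).filter Nat.Prime, Real.log p
        = ∑ p ∈ (Icc 1 N).filter Nat.Prime, (ArithmeticFunction.vonMangoldt p : ℝ) := by
          apply sum_congr rfl
          intro p hp
          rw [mem_filter] at hp
          rw [ArithmeticFunction.vonMangoldt_apply_prime hp.2]
      _ ≤ _ := by
          apply sum_le_sum_of_subset_of_nonneg (filter_subset _ _)
          intro n _ _
          exact ArithmeticFunction.vonMangoldt_nonneg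
  have h6 : C * (N : ℝ) * (Real.log N) ^ (-1 : ℝ) = C * N / Real.log N := by
    rw [Real.rpow_neg_one]
    rfl
  rw [h6] at h4
  linarith

/-- sum of `1/log n` -/
lemma sum_inv_log (N : ℕ) (hN : 4 ≤ N) :
    ∑ n ∈ Ico 2 N, 1 / Real.log n ≤ 8 * N / Real.log N := by
  have hNr : (4 : ℝ) ≤ N := by exact_mod_cast hN
  have hL : 0 < Real.log N := Real.log_pos (by linarith)
  have hl2 : (1 : ℝ) / 2 ≤ Real.log 2 := by
    have := Real.log_two_gt_d9
    linarith
  have h1 : ∀ n ∈ Ico 2 N, 1 / Real.log n ≤ (if (n : ℝ) ≤ Real.sqrt N then (2 : ℝ) else 0) +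
      2 / Real.log N := by
    intro n hn
    rw [mem_Ico] at hn
    have hn2 : (2 : ℝ) ≤ n := by exact_mod_cast hn.1
    have hln : (1 : ℝ) / 2 ≤ Real.log n := hl2.trans (Real.log_le_log (by norm_num) hn2)
    by_cases h : (n : ℝ) ≤ Real.sqrt N
    · rw [if_pos h]
      have h2 : 1 / Real.log n ≤ 2 := by
        rw [div_le_iff₀ (by linarith)]
        linarith
      have h3 : 0 ≤ 2 / Real.log N := by positivity
      linarith
    · rw [if_neg h, zero_add]
      have h2 : Real.sqrt N < n := lt_of_not_ge h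
      have h3 : Real.log (Real.sqrt N) ≤ Real.log n :=
        Real.log_le_log (by positivity) h2.le
      rw [Real.log_sqrt (by positivity)] at h3
      rw [div_le_div_iff₀ (by linarith) hL]
      linarith
  refine (sum_le_sum h1).trans ?_
  rw [sum_add_distrib, sum_const, nsmul_eq_mul, Nat.card_Ico]
  have h2 : ∑ n ∈ Ico 2 N, (if (n : ℝ) ≤ Real.sqrt N then (2 : ℝ) else 0) ≤ 2 * Real.sqrt N := by
    rw [← sum_filter, sum_const, nsmul_eq_mul]
    have h3 : ((Ico 2 N).filter (fun n : ℕ => (n : ℝ) ≤ Real.sqrt N)).card ≤ ⌊Real.sqrt N⌋₊ := by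
      calc ((Ico 2 N).filter (fun n : ℕ => (n : ℝ) ≤ Real.sqrt N)).card
          ≤ (Icc 1 ⌊Real.sqrt N⌋₊).card := by
            apply card_le_card
            intro n hn
            rw [mem_filter, mem_Ico] at hn
            rw [mem_Icc]
            exact ⟨by omega, Nat.le_floor hn.2⟩
        _ = _ := by rw [Nat.card_Icc]; omega
    have h4 : (((Ico 2 N).filter (fun n : ℕ => (n : ℝ) ≤ Real.sqrt N)).card : ℝ) ≤ Real.sqrt N :=
      (by exact_mod_cast h3 : (((Ico 2 N).filter (fun n : ℕ => (n : ℝ) ≤ Real.sqrt N)).card : ℝ) ≤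
        (⌊Real.sqrt N⌋₊ : ℝ)).trans (Nat.floor_le (by positivity))
    linarith
  have h3 : ((N - 2 : ℕ) : ℝ) ≤ N := by exact_mod_cast (by omega : N - 2 ≤ N)
  have h4 : ((N - 2 : ℕ) : ℝ) * (2 / Real.log N) ≤ N * (2 / Real.log N) :=
    mul_le_mul_of_nonneg_right h3 (by positivity)
  -- sqrt N * log N <= 2 N
  have h5 : Real.log N ≤ 2 * Real.sqrt N := by
    have h6 : Real.log (Real.sqrt N) ≤ Real.sqrt N := (Real.log_le_sub_one_of_pos
      (by positivity)).trans (by linarith)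
    rw [Real.log_sqrt (by positivity)] at h6
    linarith
  have h6 : Real.sqrt N * Real.log N ≤ 2 * N := by
    calc Real.sqrt N * Real.log N ≤ Real.sqrt N * (2 * Real.sqrt N) :=
          mul_le_mul_of_nonneg_left h5 (by positivity)
      _ = 2 * (Real.sqrt N * Real.sqrt N) := by ring
      _ = 2 * N := by rw [Real.mul_self_sqrt (by positivity)]
  have h7 : Real.sqrt N ≤ 2 * N / Real.log N := by
    rw [le_div_iff₀ hL]
    exact h6
  have h8 : (8 : ℝ) * N / Real.log N = 2 * (2 * N / Real.log N) + N * (2 / Real.log N) +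
      2 * (N / Real.log N) := by ring
  have h9 : 0 ≤ (N : ℝ) / Real.log N := by positivity
  rw [h8]
  linarith

/-- sum of `log (N/p)` -/
lemma sum_log_div : ∃ C : ℝ, 0 < C ∧ ∀ N : ℕ, 4 ≤ N →
    ∑ p ∈ (Icc 1 N).filter Nat.Prime, (Real.log N - Real.log p) ≤ C * N / Real.log N := by
  classical
  obtain ⟨C, hC, hpi⟩ := pn_cheb
  refine ⟨8 * C, by positivity, fun N hN => ?_⟩
  have h1 : ∑ p ∈ (Icc 1 N).filter Nat.Prime, (Real.log N - Real.log p) =
      ∑ n ∈ Ico 2 N, (pn n : ℝ) * (Real.log (n + 1 : ℕ) - Real.log n) := by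
    have h2 : ∀ p ∈ (Icc 1 N).filter Nat.Prime, Real.log N - Real.log p =
        ∑ n ∈ Ico p N, (Real.log (n + 1 : ℕ) - Real.log n) := by
      intro p hp
      rw [mem_filter, mem_Icc] at hp
      rw [sum_Ico_sub (fun n : ℕ => Real.log n) hp.1.2]
    rw [sum_congr rfl h2]
    rw [sum_comm' (t' := Ico 2 N) (s' := fun n => (Icc 1 n).filter Nat.Prime)]
    · apply sum_congr rfl
      intro n _
      rw [sum_const, nsmul_eq_mul]
      rfl
    · intro p n
      rw [mem_filter, mem_filter, mem_Icc, mem_Icc, mem_Ico, mem_Ico]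
      constructor
      · rintro ⟨⟨⟨h1, h2⟩, h3⟩, h4, h5⟩
        exact ⟨⟨⟨h1, h4⟩, h3⟩, h3.two_le.trans h4, h5⟩
      · rintro ⟨⟨⟨h1, h2⟩, h3⟩, h4, h5⟩
        exact ⟨⟨⟨h1, by omega⟩, h3⟩, h2, h5⟩
  rw [h1]
  have h2 : ∀ n ∈ Ico 2 N, (pn n : ℝ) * (Real.log (n + 1 : ℕ) - Real.log n) ≤
      C * (1 / Real.log n) := by
    intro n hn
    rw [mem_Ico] at hn
    have hn2 : (2 : ℝ) ≤ n := by exact_mod_cast hn.1
    have hnp : (0 : ℝ) < n := by linarith
    have h3 : Real.log (n + 1 : ℕ) - Real.log n ≤ 1 / n := by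
      push_cast
      rw [← Real.log_div (by positivity) (by positivity)]
      have h3 := Real.log_le_sub_one_of_pos (show (0 : ℝ) < (n + 1) / n by positivity)
      have h4 : ((n : ℝ) + 1) / n - 1 = 1 / n := by
        field_simp
        ring
      linarith
    have h4 := hpi n hn.1
    have hl : 0 < Real.log n := Real.log_pos (by linarith)
    calc (pn n : ℝ) * (Real.log (n + 1 : ℕ) - Real.log n)
        ≤ pn n * (1 / n) := mul_le_mul_of_nonneg_left h3 (by positivity)
      _ ≤ (C * n / Real.log n) * (1 / n) := mul_le_mul_of_nonneg_right h4 (by positivity)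
      _ = C * (1 / Real.log n) := by
          field_simp
  refine (sum_le_sum h2).trans ?_
  rw [← mul_sum]
  have h3 := mul_le_mul_of_nonneg_left (sum_inv_log N hN) hC.le
  refine h3.trans (le_of_eq ?_)
  ring

/-- prime counting with an error term -/
theorem pn_upper : ∃ C : ℝ, 0 < C ∧ ∀ N : ℕ, 4 ≤ N →
    (pn N : ℝ) ≤ N / Real.log N + C * N / Real.log N ^ 2 := by
  obtain ⟨C1, hC1, h1⟩ := theta_le
  obtain ⟨C2, hC2, h2⟩ := sum_log_div
  refine ⟨C1 + C2, by positivity, fun N hN => ?_⟩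
  have hNr : (4 : ℝ) ≤ N := by exact_mod_cast hN
  have hL : 0 < Real.log N := Real.log_pos (by linarith)
  have h3 := h1 N (by omega)
  have h4 := h2 N hN
  have h5 : ∑ p ∈ (Icc 1 N).filter Nat.Prime, (Real.log N - Real.log p) =
      pn N * Real.log N - ∑ p ∈ (Icc 1 N).filter Nat.Prime, Real.log p := by
    rw [sum_sub_distrib, sum_const, nsmul_eq_mul]
    rfl
  rw [h5] at h4
  have h6 : (pn N : ℝ) * Real.log N ≤ N + (C1 + C2) * N / Real.log N := by
    have : (C1 + C2) * (N : ℝ) / Real.log N = C1 * N / Real.log N + C2 * N / Real.log N := by ring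
    rw [this]
    linarith
  have h7 : (pn N : ℝ) ≤ (N + (C1 + C2) * N / Real.log N) / Real.log N := by
    rw [le_div_iff₀ hL]
    exact h6
  refine h7.trans (le_of_eq ?_)
  field_simp

lemma pn_eq_pi (N : ℕ) : pn N = Nat.primeCounting N := by
  unfold pn Nat.primeCounting Nat.primeCounting'
  rw [Nat.count_eq_card_filter_range]
  congr 1
  ext p
  rw [mem_filter, mem_filter, mem_Icc, mem_range]
  constructor
  · rintro ⟨⟨h1, h2⟩, h3⟩
    exact ⟨by omega, h3⟩
  · rintro ⟨h1, h2⟩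
    exact ⟨⟨h2.pos, by omega⟩, h2⟩

/-- prime number theorem, lower bound -/
theorem pn_lower (e : ℝ) (he : 0 < e) : ∀ᶠ N : ℕ in atTop,
    (1 - e) * N / Real.log N ≤ pn N := by
  have h1 := Pool.Agent.H5.PNT.pi_tendsto.comp tendsto_natCast_atTop_atTop
  have h2 := h1.eventually (lt_mem_nhds (show 1 - e < 1 by linarith))
  filter_upwards [h2, eventually_ge_atTop 3] with N h3 h4
  simp only [Function.comp_apply, Nat.floor_natCast] at h3
  rw [← pn_eq_pi] at h3
  have hN : (3 : ℝ) ≤ N := by exact_mod_cast h4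
  have hL : 0 < Real.log N := Real.log_pos (by linarith)
  rw [lt_div_iff₀ (by linarith)] at h3
  rw [div_le_iff₀ hL]
  exact h3.le

/-- second moment over blocks -/
theorem second : ∃ C : ℝ, 0 < C ∧ ∀ N K : ℕ, 2 ≤ N → 1 ≤ K → K ≤ N →
    ∑ a ∈ range (N + 1 - K), (cnt a K : ℝ) ^ 2 ≤
      C * (K * N / Real.log N + (K : ℝ) ^ 2 * N / (Real.log N) ^ 2) := by
  obtain ⟨C, hC, h⟩ := Pool.Agent.H5.Short.second
  refine ⟨C, hC, fun N K hN hK hKN => ?_⟩
  refine le_trans ?_ (h N K hN hK hKN)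
  apply sum_le_sum_of_subset_of_nonneg
  · intro a ha
    rw [mem_range] at ha ⊢
    omega
  · intro a _ _
    positivity

end Pool.Agent.H60.RS
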