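import Pool.Agent.H60.RS.Block

/-!
Sums over all blocks: every quantity of the block inequality, summed over `a <= N - K`.
-/

namespace Pool.Agent.H60.RS

open Finset

/-- harmonic number as a real -/
noncomputable def har (r : ℕ) : ℝ := ((harmonic r : ℚ) : ℝ)

lemma har_eq (r : ℕ) : har r = ∑ i ∈ range r, 1 / ((i : ℝ) + 1) := by
  unfold har harmonic
  push_cast
  simp [one_div]

lemma har_mono {r s : ℕ} (h : r ≤ s) : har r ≤ har s := by
  rw [har_eq, har_eq]
  apply sum_le_sum_of_subset_of_nonneg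
  · intro i hi
    rw [mem_range] at hi ⊢
    omega
  · intro i _ _
    positivity

lemma har_nonneg (r : ℕ) : 0 ≤ har r := by
  rw [har_eq]
  apply sum_nonneg
  intro i _
  positivity

lemma har_le (r : ℕ) : har r ≤ 1 + Real.log r := harmonic_le_one_add_log r

lemma har_ge (r : ℕ) : Real.log (r + 1) ≤ har r := by
  have := log_add_one_le_harmonic r
  unfold har
  exact_mod_cast this

/-- number of primes up to `N` -/
def pn (N : ℕ) : ℕ := ((Icc 1 N).filter Nat.Prime).card

/-- each point lies in at most `K` blocks -/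
theorem sum_blocks (g : ℕ → ℝ) (hg : ∀ n, 0 ≤ g n) (N K : ℕ) (hK : K ≤ N) :
    ∑ a ∈ range (N + 1 - K), ∑ n ∈ Ioc a (a + K), g n ≤ K * ∑ n ∈ Icc 1 N, g n := by
  classical
  have h1 : ∑ a ∈ range (N + 1 - K), ∑ n ∈ Ioc a (a + K), g n =
      ∑ n ∈ Icc 1 N, ∑ a ∈ (range (N + 1 - K)).filter (fun a => a < n ∧ n ≤ a + K), g n := by
    rw [sum_comm' (t' := Icc 1 N)
      (s' := fun n => (range (N + 1 - K)).filter (fun a => a < n ∧ n ≤ a + K))]
    intro a n
    rw [mem_filter, mem_range, mem_Ioc, mem_Icc]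
    constructor
    · rintro ⟨h1, h2, h3⟩
      exact ⟨⟨h1, h2, h3⟩, by omega, by omega⟩
    · rintro ⟨⟨h1, h2, h3⟩, _, _⟩
      exact ⟨h1, h2, h3⟩
  rw [h1, mul_sum]
  apply sum_le_sum
  intro n _
  rw [sum_const, nsmul_eq_mul]
  apply mul_le_mul_of_nonneg_right _ (hg n)
  have h2 : ((range (N + 1 - K)).filter (fun a => a < n ∧ n ≤ a + K)).card ≤ K := by
    calc ((range (N + 1 - K)).filter (fun a => a < n ∧ n ≤ a + K)).card
        ≤ (Ico (n - K) n).card := by
          apply card_le_card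
          intro a ha
          rw [mem_filter] at ha
          rw [mem_Ico]
          omega
      _ ≤ K := by
          rw [Nat.card_Ico]
          omega
  exact_mod_cast h2

lemma cnt_eq (a K : ℕ) : (cnt a K : ℝ) =
    ∑ n ∈ Ioc a (a + K), (if n.Prime then (1 : ℝ) else 0) := by
  unfold cnt
  rw [← sum_filter, sum_const, nsmul_eq_mul, mul_one]

lemma pn_eq (N : ℕ) : (pn N : ℝ) = ∑ n ∈ Icc 1 N, (if n.Prime then (1 : ℝ) else 0) := by
  unfold pn
  rw [← sum_filter, sum_const, nsmul_eq_mul, mul_one]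

theorem sum_cnt (N K : ℕ) (hK : K ≤ N) :
    ∑ a ∈ range (N + 1 - K), (cnt a K : ℝ) ≤ K * pn N := by
  simp only [cnt_eq, pn_eq]
  apply sum_blocks _ _ _ _ hK
  intro n
  split_ifs <;> norm_num

/-- reciprocals of the distances to the right of `p` -/
lemma sum_recip (p b : ℕ) : ∑ m ∈ Ioc p b, 1 / ((m : ℝ) - p) = har (b - p) := by
  rw [har_eq]
  symm
  apply sum_bij (fun i _ => p + 1 + i)
  · intro i hi
    rw [mem_range] at hi
    rw [mem_Ioc]
    omega
  · intro i _ j _ h
    omega
  · intro m hm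
    rw [mem_Ioc] at hm
    refine ⟨m - p - 1, ?_, by omega⟩
    rw [mem_range]
    omega
  · intro i _
    push_cast
    ring_nf

/-- the local sum of a block, prime by prime -/
theorem W_eq (a K : ℕ) : W a K = ∑ p ∈ (Ioc a (a + K)).filter Nat.Prime, har (a + K - p) := by
  classical
  unfold W loc
  rw [sum_comm' (t' := (Ioc a (a + K)).filter Nat.Prime) (s' := fun p => Ioc p (a + K))]
  · apply sum_congr rfl
    intro p _
    exact sum_recip p (a + K)
  · intro m p
    rw [mem_filter, mem_filter, mem_Ioc, mem_Ioc, mem_Ioo, mem_Ioc]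
    constructor
    · rintro ⟨⟨h1, h2⟩, ⟨h3, h4⟩, h5⟩
      exact ⟨⟨h4, h2⟩, ⟨h3, by omega⟩, h5⟩
    · rintro ⟨⟨h1, h2⟩, ⟨h3, h4⟩, h5⟩
      exact ⟨⟨by omega, h2⟩, ⟨h3, h1⟩, h5⟩

theorem W_le (a K : ℕ) : W a K ≤ cnt a K * har K := by
  rw [W_eq]
  unfold cnt
  rw [← nsmul_eq_mul, ← sum_const]
  apply sum_le_sum
  intro p hp
  rw [mem_filter, mem_Ioc] at hp
  apply har_mono
  omega

/-- total of the local sums -/
theorem sum_W (N K : ℕ) (hK : 1 ≤ K) :
    (((Icc K (N - K)).filter Nat.Prime).card : ℝ) * ∑ r ∈ range K, har r ≤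
      ∑ a ∈ range (N + 1 - K), W a K := by
  classical
  by_cases hN : 2 * K ≤ N
  swap
  · have : Icc K (N - K) = ∅ := by
      apply Icc_eq_empty
      omega
    rw [this, filter_empty, card_empty, Nat.cast_zero, zero_mul]
    exact sum_nonneg fun a _ => W_nonneg a K
  have h1 : ∑ a ∈ range (N + 1 - K), W a K =
      ∑ a ∈ range (N + 1 - K), ∑ p ∈ (Ioc a (a + K)).filter Nat.Prime, har (a + K - p) := by
    apply sum_congr rfl
    intro a _
    exact W_eq a K
  have h2 : ∑ a ∈ range (N + 1 - K), ∑ p ∈ (Ioc a (a + K)).filter Nat.Prime, har (a + K - p) =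
      ∑ p ∈ (Icc 1 N).filter Nat.Prime,
        ∑ a ∈ (range (N + 1 - K)).filter (fun a => a < p ∧ p ≤ a + K), har (a + K - p) := by
    rw [sum_comm' (t' := (Icc 1 N).filter Nat.Prime)
      (s' := fun p => (range (N + 1 - K)).filter (fun a => a < p ∧ p ≤ a + K))]
    intro a p
    rw [mem_filter, mem_filter, mem_filter, mem_range, mem_Ioc, mem_Icc]
    constructor
    · rintro ⟨h1, ⟨h2, h3⟩, h4⟩
      exact ⟨⟨h1, h2, h3⟩, ⟨by omega, by omega⟩, h4⟩
    · rintro ⟨⟨h1, h2, h3⟩, _, h4⟩
      exact ⟨h1, ⟨h2, h3⟩, h4⟩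
  rw [h1, h2]
  have h3 : ∑ p ∈ (Icc K (N - K)).filter Nat.Prime, ∑ r ∈ range K, har r ≤
      ∑ p ∈ (Icc K (N - K)).filter Nat.Prime,
        ∑ a ∈ (range (N + 1 - K)).filter (fun a => a < p ∧ p ≤ a + K), har (a + K - p) := by
    apply sum_le_sum
    intro p hp
    rw [mem_filter, mem_Icc] at hp
    apply le_of_eq
    apply sum_bij (fun r _ => p - K + r)
    · intro r hr
      rw [mem_range] at hr
      rw [mem_filter, mem_range]
      omega
    · intro i _ j _ h
      omega
    · intro a ha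
      rw [mem_filter, mem_range] at ha
      refine ⟨a + K - p, ?_, by omega⟩
      rw [mem_range]
      omega
    · intro r hr
      rw [mem_range] at hr
      have : p - K + r + K - p = r := by omega
      rw [this]
  rw [sum_const, nsmul_eq_mul] at h3
  refine h3.trans ?_
  apply sum_le_sum_of_subset_of_nonneg
  · intro p hp
    rw [mem_filter, mem_Icc] at hp ⊢
    exact ⟨⟨by omega, by omega⟩, hp.2⟩
  · intro p _ _
    apply sum_nonneg
    intro a _
    exact har_nonneg _

/-- the average of the harmonic numbers -/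
theorem sum_har (K : ℕ) : K * Real.log K - K ≤ ∑ r ∈ range K, har r := by
  have h1 : ∀ k : ℕ, (k : ℝ) * Real.log k - k ≤ ∑ r ∈ range k, Real.log (r + 1) := by
    intro k
    induction k with
    | zero => simp
    | succ k ih =>
      rw [sum_range_succ]
      push_cast
      rcases Nat.eq_zero_or_pos k with h0 | h0
      · subst h0
        simp
      · have hk : (0 : ℝ) < k := by exact_mod_cast h0
        have h2 : Real.log (k + 1) - Real.log k ≤ 1 / k := by
          rw [← Real.log_div (by positivity) (by positivity)]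
          have h3 := Real.log_le_sub_one_of_pos (show (0 : ℝ) < (k + 1) / k by positivity)
          have h4 : ((k : ℝ) + 1) / k - 1 = 1 / k := by
            field_simp
            ring
          linarith
        have h3 : (k : ℝ) * (Real.log (k + 1) - Real.log k) ≤ 1 := by
          calc (k : ℝ) * (Real.log (k + 1) - Real.log k) ≤ k * (1 / k) :=
                mul_le_mul_of_nonneg_left h2 hk.le
            _ = 1 := by field_simp
        linarith
  refine (h1 K).trans ?_
  apply sum_le_sum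
  intro r _
  exact har_ge r

/-- upper bound for the total of `f` -/
theorem sum_f (N : ℕ) : ∑ n ∈ Icc 1 N, f n ≤ pn N * har N := by
  classical
  unfold f
  have h1 : ∑ n ∈ Icc 1 N, ∑ p ∈ (range n).filter Nat.Prime, 1 / ((n : ℝ) - p) ≤
      ∑ p ∈ (Icc 1 N).filter Nat.Prime, ∑ n ∈ Ioc p N, 1 / ((n : ℝ) - p) := by
    rw [sum_comm' (t' := (Icc 1 N).filter Nat.Prime) (s' := fun p => Ioc p N)]
    intro n p
    rw [mem_filter, mem_filter, mem_Icc, mem_Icc, mem_range, mem_Ioc]
    constructor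
    · rintro ⟨⟨h1, h2⟩, h3, h4⟩
      exact ⟨⟨h3, h2⟩, ⟨h4.pos, by omega⟩, h4⟩
    · rintro ⟨⟨h1, h2⟩, ⟨h3, h4⟩, h5⟩
      exact ⟨⟨by omega, h2⟩, h1, h5⟩
  refine h1.trans ?_
  unfold pn
  rw [← nsmul_eq_mul, ← sum_const]
  apply sum_le_sum
  intro p _
  rw [sum_recip]
  apply har_mono
  omega

/-- the sums of squares at the free points -/
theorem sum_sqf (N G : ℕ) (hG : 1 ≤ G) : ∑ n ∈ Icc 1 N, sqf G n ≤ pn N / G := by
  classical
  have h1 : ∀ n ∈ Icc 1 N, sqf G n ≤
      ∑ p ∈ (range (n - G)).filter Nat.Prime, 1 / ((n : ℝ) - p) ^ 2 := by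
    intro n _
    unfold sqf
    split_ifs with h
    · unfold sq
      apply le_of_eq
      have : (range n).filter Nat.Prime = (range (n - G)).filter Nat.Prime := by
        ext p
        rw [mem_filter, mem_filter, mem_range, mem_range]
        constructor
        · rintro ⟨h1, h2⟩
          have := h p h2 h1
          exact ⟨by omega, h2⟩
        · rintro ⟨h1, h2⟩
          exact ⟨by omega, h2⟩
      rw [this]
    · apply sum_nonneg
      intro p _
      positivity
  refine (sum_le_sum h1).trans ?_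
  have h2 : ∑ n ∈ Icc 1 N, ∑ p ∈ (range (n - G)).filter Nat.Prime, 1 / ((n : ℝ) - p) ^ 2 =
      ∑ p ∈ (Icc 1 N).filter Nat.Prime, ∑ n ∈ Ioc (p + G) N, 1 / ((n : ℝ) - p) ^ 2 := by
    rw [sum_comm' (t' := (Icc 1 N).filter Nat.Prime) (s' := fun p => Ioc (p + G) N)]
    intro n p
    rw [mem_filter, mem_filter, mem_Icc, mem_Icc, mem_range, mem_Ioc]
    constructor
    · rintro ⟨⟨h1, h2⟩, h3, h4⟩
      exact ⟨⟨by omega, h2⟩, ⟨h4.pos, by omega⟩, h4⟩
    · rintro ⟨⟨h1, h2⟩, ⟨h3, h4⟩, h5⟩
      exact ⟨⟨by omega, h2⟩, by omega, h5⟩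
  rw [h2]
  have hGr : (0 : ℝ) < G := by exact_mod_cast hG
  have h3 : ∀ p ∈ (Icc 1 N).filter Nat.Prime,
      ∑ n ∈ Ioc (p + G) N, 1 / ((n : ℝ) - p) ^ 2 ≤ 1 / (G : ℝ) := by
    intro p _
    by_cases hN : p + G ≤ N
    · have h4 : ∑ n ∈ Ioc (p + G) N, 1 / ((n : ℝ) - p) ^ 2 =
          ∑ i ∈ Ioc G (N - p), (((i : ℕ) : ℝ) ^ 2)⁻¹ := by
        symm
        apply sum_bij (fun i _ => p + i)
        · intro i hi
          rw [mem_Ioc] at hi ⊢
          omega
        · intro i _ j _ h
          omega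
        · intro m hm
          rw [mem_Ioc] at hm
          refine ⟨m - p, ?_, by omega⟩
          rw [mem_Ioc]
          omega
        · intro i _
          push_cast
          rw [one_div]
          ring_nf
      rw [h4]
      have h5 := sum_Ioc_inv_sq_le_sub (α := ℝ) (k := G) (n := N - p) (by omega) (by omega)
      have h6 : (0 : ℝ) ≤ ((N - p : ℕ) : ℝ)⁻¹ := by positivity
      rw [one_div]
      linarith
    · have : Ioc (p + G) N = ∅ := by
        apply Ioc_eq_empty
        omega
      rw [this, sum_empty]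
      positivity
  refine (sum_le_sum h3).trans ?_
  rw [sum_const, nsmul_eq_mul]
  unfold pn
  apply le_of_eq
  ring

open Classical in
/-- few points are not free -/
theorem not_free (N G : ℕ) :
    (((Icc 1 N).filter (fun n => ¬ Free G n)).card : ℝ) ≤ G * pn N := by
  have h1 : (Icc 1 N).filter (fun n => ¬ Free G n) ⊆
      ((Icc 1 N).filter Nat.Prime).biUnion (fun p => Ioc p (p + G)) := by
    intro n hn
    rw [mem_filter, mem_Icc] at hn
    obtain ⟨⟨h1, h2⟩, h3⟩ := hn
    unfold Free at h3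
    push Not at h3
    obtain ⟨p, hp, hpn, hpG⟩ := h3
    rw [mem_biUnion]
    refine ⟨p, ?_, ?_⟩
    · rw [mem_filter, mem_Icc]
      exact ⟨⟨hp.pos, by omega⟩, hp⟩
    · rw [mem_Ioc]
      omega
  have h2 : ((Icc 1 N).filter (fun n => ¬ Free G n)).card ≤ pn N * G := by
    refine (card_le_card h1).trans ?_
    refine card_biUnion_le.trans ?_
    unfold pn
    rw [← smul_eq_mul, ← sum_const]
    apply sum_le_sum
    intro p _
    rw [Nat.card_Ioc]
    omega
  have h3 : (((Icc 1 N).filter (fun n => ¬ Free G n)).card : ℝ) ≤ ((pn N * G : ℕ) : ℝ) := by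
    exact_mod_cast h2
  refine h3.trans (le_of_eq ?_)
  push_cast
  ring

open Classical in
/-- few bad blocks -/
theorem bad_card (kap : ℝ) (hk : 0 < kap) (N K G : ℕ) (hK1 : 1 ≤ K) (hK : K ≤ N) :
    kap * ((((range (N + 1 - K)).filter (fun a => ¬ Good kap a K G)).card : ℕ) : ℝ) ≤
      G * pn N := by
  have hKr : (0 : ℝ) < K := by exact_mod_cast hK1
  set B := (range (N + 1 - K)).filter (fun a => ¬ Good kap a K G) with hB
  have h1 : ∀ a ∈ B, kap * K ≤ ∑ n ∈ Ioc a (a + K), (if Free G n then (0 : ℝ) else 1) := by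
    intro a ha
    rw [hB, mem_filter] at ha
    have h2 := ha.2
    unfold Good at h2
    have h2' : (((Ioc a (a + K)).filter (Free G)).card : ℝ) < (1 - kap) * K := lt_of_not_ge h2
    have h3 : ∑ n ∈ Ioc a (a + K), (if Free G n then (0 : ℝ) else 1) =
        (((Ioc a (a + K)).filter (fun n => ¬ Free G n)).card : ℝ) := by
      rw [card_filter]
      push_cast
      apply sum_congr rfl
      intro n _
      split_ifs <;> norm_num
    have h4 : ((Ioc a (a + K)).filter (Free G)).card +
        ((Ioc a (a + K)).filter (fun n => ¬ Free G n)).card = K := by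
      rw [card_filter_add_card_filter_not, Nat.card_Ioc]
      omega
    have h4' : (((Ioc a (a + K)).filter (Free G)).card : ℝ) +
        (((Ioc a (a + K)).filter (fun n => ¬ Free G n)).card : ℝ) = K := by exact_mod_cast h4
    rw [h3]
    linarith
  have h5 : (B.card : ℝ) * (kap * K) ≤
      ∑ a ∈ range (N + 1 - K), ∑ n ∈ Ioc a (a + K), (if Free G n then (0 : ℝ) else 1) := by
    rw [← nsmul_eq_mul, ← sum_const]
    refine (sum_le_sum h1).trans ?_
    apply sum_le_sum_of_subset_of_nonneg (filter_subset _ _)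
    intro a _ _
    apply sum_nonneg
    intro n _
    split_ifs <;> norm_num
  have h6 := sum_blocks (fun n => if Free G n then (0 : ℝ) else 1)
    (fun n => by split_ifs <;> norm_num) N K hK
  have h7 : ∑ n ∈ Icc 1 N, (if Free G n then (0 : ℝ) else 1) =
      (((Icc 1 N).filter (fun n => ¬ Free G n)).card : ℝ) := by
    rw [card_filter]
    push_cast
    apply sum_congr rfl
    intro n _
    split_ifs <;> norm_num
  have h8 := not_free N G
  rw [h7] at h6
  have h9 : (B.card : ℝ) * (kap * K) ≤ K * (G * pn N) :=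
    (h5.trans h6).trans (mul_le_mul_of_nonneg_left h8 hKr.le)
  have h10 : (K : ℝ) * (kap * B.card) ≤ K * (G * pn N) := by linarith
  exact le_of_mul_le_mul_left h10 hKr

end Pool.Agent.H60.RS
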